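import Pool.Agent.H38.BT.Bounds

/-!
A counterexample to the question of Diestel and Leader can only exist when both the dominating
number and the reaping number are equal to the first uncountable cardinal.
-/

namespace Pool.Agent.Results.MP_558088_co.Counterexample

open Cardinal Pool.Agent.H38.BT

/-- Let `G` be a nonempty (aleph-zero, aleph-one)-graph with countable side `B` such that every
minor of `G` which is a nonempty (aleph-zero, aleph-one)-graph is divisible and not of binary type.
Then the dominating number and the reaping number are both equal to aleph-one. -/
theorem result (V : Type) (G : SimpleGraph V) (A B : Set V) (hV : Nonempty V)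
    (hG : IsAlephGraph G A B) (hB : B.Countable)
    (hcounter : ∀ (W : Type) (H : SimpleGraph W) (A' B' : Set W), Nonempty W → IsMinor H G →
      IsAlephGraph H A' B' → Divisible H A' B' ∧ ¬ H.IsContained rayGraph) :
    dominatingNumber = ℵ₁ ∧ reapingNumber = ℵ₁ := by
  have hno : ¬ HasGoodMinor G := by
    rintro ⟨W, H, A', B', hW, hmin, hH, h⟩
    obtain ⟨h1, h2⟩ := hcounter W H A' B' hW hmin hH
    rcases h with h | h
    · exact h h1
    · exact h2 h
  have hmax : ¬ (ℵ₁ < dominatingNumber ∨ ℵ₁ < reapingNumber) := fun h =>
    hno (good_of_max hG hB h)
  constructor
  · refine le_antisymm ?_ aleph_one_le_dominatingNumber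
    by_contra h
    exact hmax (Or.inl (not_le.mp h))
  · refine le_antisymm ?_ aleph_one_le_reapingNumber
    by_contra h
    exact hmax (Or.inr (not_le.mp h))

end Pool.Agent.Results.MP_558088_co.Counterexample
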