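import Pool.Agent.H38.BT.Filt

/-!
Every (aleph-zero, aleph-one)-graph whose filter is meagre or nearly ultra has a minor which is
indivisible or of binary type.
-/

namespace Pool.Agent.Results.MP_558088_co.MeagerOrUltra

open Cardinal Pool.Agent.H38.BT

/-- Let `G` be a nonempty (aleph-zero, aleph-one)-graph with countable side `B`, and let its filter
consist of the sets containing all but finitely many neighbours of all but countably many vertices
of `A`. If the filter is meagre or nearly ultra, then `G` has a minor which is a nonempty
(aleph-zero, aleph-one)-graph and which is indivisible or of binary type. -/
theorem result (V : Type) (G : SimpleGraph V) (A B : Set V) (hV : Nonempty V)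
    (hG : IsAlephGraph G A B) (hB : B.Countable)
    (h : MeagerFilter G A B ∨ NearlyUltraFilter G A B) : HasGoodMinor G :=
  good_of_filter hG hB h

end Pool.Agent.Results.MP_558088_co.MeagerOrUltra
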