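import Pool.Agent.H38.BT.Bwd

/-!
The inequality between the first uncountable cardinal and the reaping number is equivalent to the
existence of spanning subgraphs of binary type, through any star factor, in all
(aleph-zero, aleph-one)-graphs with countable side `B`.
-/

namespace Pool.Agent.Results.MP_558088_co.ReapingNumber

open Cardinal Pool.Agent.H38.BT

/-- The reaping number is larger than aleph-one if and only if every
(aleph-zero, aleph-one)-graph `G` with countable side `B` has a star factor and every star factor
of `G` lies in a spanning subgraph `H` of `G` which is an (aleph-zero, aleph-one)-graph of binary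
type. -/
theorem result :
    ℵ₁ < reapingNumber ↔
      ∀ (V : Type) (G : SimpleGraph V) (A B : Set V), IsAlephGraph G A B → B.Countable →
        (∃ F : SimpleGraph V, IsStarFactor G A B F) ∧
        ∀ F : SimpleGraph V, IsStarFactor G A B F →
          ∃ H : SimpleGraph V, F ≤ H ∧ H ≤ G ∧ IsAlephGraph H A B ∧
            H.IsContained rayGraph := by
  constructor
  · intro hr V G A B hG hB
    exact ⟨exists_starFactor hG hB, fun F hF => exists_binary hr hG hB F hF⟩
  · intro hE
    by_contra hr
    obtain ⟨R, hR, hRc⟩ := exists_isReaping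
    have hR1 : #R ≤ ℵ₁ := hRc.trans_le (not_lt.mp hr)
    have hne := reaping_nonempty_of_isReaping hR
    have hΩ : #(ℵ₁ : Cardinal.{0}).out = ℵ₁ := Cardinal.mk_out _
    let P : (R × (ℵ₁ : Cardinal.{0}).out × ℕ) → ℕ → Prop := fun p n => n ∈ p.1.1 ∨ n = p.2.2
    have hG : IsAlephGraph (bipGraph P) (Set.range Sum.inl) (Set.range Sum.inr) :=
      isAlephGraph_bip hR1 hne hΩ P
        (fun p => (hR.1 p.1.1 p.1.2).mono fun n hn => Or.inl hn) (fun p => Or.inr rfl)
    have hB : (Set.range (Sum.inr : ℕ → (R × (ℵ₁ : Cardinal.{0}).out × ℕ) ⊕ ℕ)).Countable :=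
      Set.countable_range _
    obtain ⟨H, hFH, hHG, hH, hc⟩ := (hE _ _ _ _ hG hB).2
      (bipGraph (fun (p : R × (ℵ₁ : Cardinal.{0}).out × ℕ) n => n = p.2.2))
      (isStarFactor_bip hR1 hne hΩ P (fun p => Or.inr rfl))
    exact false_of_copy hR hΩ H hFH hHG hH hc

end Pool.Agent.Results.MP_558088_co.ReapingNumber
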